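import Mathlib
import Pool.Agent.Work.MP_787500_nt.PA.Climb

/-!
Local theory for subgroups of odd index: a system in which every open subgroup `U` has
`d * U.index + 2` independent homomorphisms to `ZMod 2` is of local type (copies of `PA/Nondeg.lean`,
`PA/Symb.lean`, `PA/Climb.lean`, where `d = 1`).
-/

set_option autoImplicit false

namespace Pool.Agent.Work.MP_787500_nt.LE

open Pool.Agent.Work.MP_787500_nt.PA (TwoSys Sm1 Sm2 homs Coc Cob IsChar Opn cor chi cup LocalType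
  finrank_cor cor_mem cup_chi_iff cor_indep notres exists_between exists_cob res_cob chi_mem)
open Pool.Agent.Work.MP_787500_nt

/-- every open subgroup `U` has `d * U.index + 2` independent homomorphisms to `ZMod 2` -/
def CountsD {G : Type*} [Group G] (S : TwoSys G) (d : ℕ) : Prop :=
  ∀ U : Subgroup G, Opn S U →
    FiniteDimensional (ZMod 2) (homs S U) ∧ Module.finrank (ZMod 2) (homs S U) = d * U.index + 2

variable {G : Type*} [Group G] {S : TwoSys G} {d : ℕ}

private lemma nd_two (a : ZMod 2) : a + a = 0 := CharTwo.add_self_eq_zero a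

private lemma nd_one : ∀ x : ZMod 2, x ≠ 0 → x = 1 := by decide

theorem exists_kernel (hS : CountsD S d) {U : Subgroup G} (hU : Opn S U) {χ : G → ZMod 2}
    (hχ : χ ∈ homs S U) (h0 : χ ≠ 0) :
    ∃ V : Subgroup G, V ≤ U ∧ Opn S V ∧ V.relIndex U = 2 ∧ χ = chi V U := by
  classical
  obtain ⟨⟨W, hW, h1⟩, hoff, hadd⟩ := hχ
  have e1 : χ 1 = 0 := by
    have := hadd 1 U.one_mem 1 U.one_mem
    rw [one_mul] at this
    rw [this, nd_two]
  let V : Subgroup G :=
    { carrier := {g | g ∈ U ∧ χ g = 0}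
      mul_mem' := by
        rintro a b ⟨ha, ha'⟩ ⟨hb, hb'⟩
        exact ⟨U.mul_mem ha hb, by rw [hadd a ha b hb, ha', hb', add_zero]⟩
      one_mem' := ⟨U.one_mem, e1⟩
      inv_mem' := by
        rintro a ⟨ha, ha'⟩
        refine ⟨U.inv_mem ha, ?_⟩
        have := hadd a ha a⁻¹ (U.inv_mem ha)
        rw [mul_inv_cancel, e1, ha', zero_add] at this
        exact this.symm }
  have hmem : ∀ g, g ∈ V ↔ g ∈ U ∧ χ g = 0 := fun _ => Iff.rfl
  have hVU : V ≤ U := fun g hg => hg.1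
  obtain ⟨a, ha⟩ : ∃ a, χ a ≠ 0 := by
    by_contra hcon
    push Not at hcon
    exact h0 (funext hcon)
  have haU : a ∈ U := by
    by_contra h
    exact ha (hoff a h)
  refine ⟨V, hVU, ?_, ?_, ?_⟩
  · obtain ⟨W', hW', hle⟩ := hU
    refine ⟨W ⊓ W', S.inf hW hW', fun w hw => ⟨hle hw.2, ?_⟩⟩
    have := h1 1 w hw.1
    rwa [one_mul, e1] at this
  · rw [Subgroup.relIndex, Subgroup.index_eq_two_iff]
    refine ⟨⟨a, haU⟩, fun b => ?_⟩
    have hb := hadd b b.2 a haU
    rw [nd_one _ ha] at hb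
    have k1 : (b * ⟨a, haU⟩ : U) ∈ V.subgroupOf U ↔ χ (b * a) = 0 := by
      rw [Subgroup.mem_subgroupOf, hmem]
      simp only [Subgroup.coe_mul, and_iff_right_iff_imp]
      intro _
      exact U.mul_mem b.2 haU
    have k2 : b ∈ V.subgroupOf U ↔ χ b = 0 := by
      rw [Subgroup.mem_subgroupOf, hmem]
      simp only [SetLike.coe_mem, true_and]
    rw [k1, k2, hb]
    by_cases hc : χ b = 0
    · rw [hc]
      right
      exact ⟨rfl, by decide⟩
    · rw [nd_one _ hc]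
      left
      exact ⟨by decide, by decide⟩
  · funext g
    unfold chi
    by_cases hg : g ∈ U
    · by_cases hc : χ g = 0
      · rw [hc, if_neg]
        rintro ⟨-, h⟩
        exact h ⟨hg, hc⟩
      · rw [nd_one _ hc, if_pos]
        exact ⟨hg, fun h => hc h.2⟩
    · rw [hoff g hg, if_neg]
      rintro ⟨h, -⟩
      exact hg h

private theorem nd_rank (hS : CountsD S d) {V U : Subgroup G} (hVU : V ≤ U) (hV : Opn S V)
    (h2 : V.relIndex U = 2) {s : G} (hs : s ∈ U) (hs' : s ∉ V) :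
    Module.finrank (ZMod 2) ((homs S V).map (cor V U s)) = d * U.index + 1 ∧
      (homs S V).map (cor V U s) ≤ homs S U ∧ Module.finrank (ZMod 2) (homs S U) = d * U.index + 2 ∧
      FiniteDimensional (ZMod 2) (homs S U) := by
  have hU : Opn S U := by
    obtain ⟨W, hW, hle⟩ := hV
    exact ⟨W, hW, hle.trans hVU⟩
  obtain ⟨fV, rV⟩ := hS V hV
  obtain ⟨fU, rU⟩ := hS U hU
  have h3 := finrank_cor hVU hV h2 hs hs' fV fU
  have h4 := Subgroup.relIndex_mul_index hVU
  rw [h2] at h4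
  have h5 : d * V.index = 2 * (d * U.index) := by rw [← h4]; ring
  rw [h5] at rV
  refine ⟨by omega, ?_, rU, fU⟩
  rintro _ ⟨ψ, hψ, rfl⟩
  exact cor_mem hVU hV h2 hs hs' hψ

private theorem nd_out {V U : Subgroup G} (hVU : V ≤ U) (h2 : V.relIndex U = 2) :
    ∃ s ∈ U, s ∉ V := by
  by_contra hcon
  push Not at hcon
  have : V.relIndex U = 1 := Subgroup.relIndex_eq_one.2 hcon
  omega

theorem exists_not_cob (hS : CountsD S d) {U : Subgroup G} (hU : Opn S U) {χ : G → ZMod 2}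
    (hχ : χ ∈ homs S U) (h0 : χ ≠ 0) : ∃ ω ∈ homs S U, ¬ Cob S U (cup χ ω) := by
  obtain ⟨V, hVU, hV, h2, rfl⟩ := exists_kernel hS hU hχ h0
  obtain ⟨s, hs, hs'⟩ := nd_out hVU h2
  obtain ⟨r1, hle, r2, hf⟩ := nd_rank hS hVU hV h2 hs hs'
  by_contra hcon
  push Not at hcon
  have : homs S U ≤ (homs S V).map (cor V U s) := by
    intro ω hω
    obtain ⟨ψ, hψ, h⟩ := (cup_chi_iff hVU hV h2 hs hs' hω).1 (hcon ω hω)
    exact ⟨ψ, hψ, h⟩
  have he := le_antisymm hle this
  rw [he] at r1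
  omega

theorem cob_add (hS : CountsD S d) {U : Subgroup G} (hU : Opn S U) {χ : G → ZMod 2}
    (hχ : χ ∈ homs S U) {ω ω' : G → ZMod 2} (hω : ω ∈ homs S U) (hω' : ω' ∈ homs S U)
    (h : ¬ Cob S U (cup χ ω)) (h' : ¬ Cob S U (cup χ ω')) : Cob S U (cup χ (ω + ω')) := by
  by_cases h0 : χ = 0
  · exfalso
    apply h
    obtain ⟨W, hW⟩ := S.ex
    refine ⟨fun _ => 0, ⟨W, hW, fun _ _ _ => rfl⟩, fun g _ k _ => ?_⟩
    simp [cup, h0]
  obtain ⟨V, hVU, hV, h2, rfl⟩ := exists_kernel hS hU hχ h0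
  obtain ⟨s, hs, hs'⟩ := nd_out hVU h2
  obtain ⟨r1, hle, r2, hf⟩ := nd_rank hS hVU hV h2 hs hs'
  set M := (homs S V).map (cor V U s) with hM
  have hiff : ∀ η ∈ homs S U, (Cob S U (cup (chi V U) η) ↔ η ∈ M) := by
    intro η hη
    rw [cup_chi_iff hVU hV h2 hs hs' hη]
    constructor
    · rintro ⟨ψ, hψ, e⟩; exact ⟨ψ, hψ, e⟩
    · rintro ⟨ψ, hψ, e⟩; exact ⟨ψ, hψ, e⟩
  rw [hiff ω hω] at h
  rw [hiff ω' hω'] at h'
  rw [hiff _ (add_mem hω hω')]
  set N := M ⊔ Submodule.span (ZMod 2) {ω} with hN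
  have hNle : N ≤ homs S U := sup_le hle ((Submodule.span_singleton_le_iff_mem _ _).2 hω)
  have hNf : FiniteDimensional (ZMod 2) N := Submodule.finiteDimensional_of_le hNle
  have hωN : ω ∈ N := (le_sup_right : _ ≤ N) (Submodule.mem_span_singleton_self ω)
  have hlt : M < N := lt_of_le_of_ne le_sup_left (fun e => h (by rw [e]; exact hωN))
  have hfr := Submodule.finrank_lt_finrank_of_lt hlt
  have hfr2 := Submodule.finrank_mono hNle
  have hNe : N = homs S U := Submodule.eq_of_le_of_finrank_eq hNle (by omega)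
  have : ω' ∈ N := by rw [hNe]; exact hω'
  rw [hN, Submodule.mem_sup] at this
  obtain ⟨m, hm, y, hy, e⟩ := this
  obtain ⟨c, rfl⟩ := Submodule.mem_span_singleton.1 hy
  by_cases hc : c = 0
  · rw [hc, zero_smul, add_zero] at e
    rw [← e] at h'
    exact absurd hm h'
  · rw [nd_one c hc, one_smul] at e
    have : ω + ω' = m := by
      rw [← e]
      funext g
      simp only [Pi.add_apply]
      have := nd_two (ω g)
      linear_combination this
    rw [this]
    exact hm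

theorem exists_cor_ne_zero (hS : CountsD S d) {V U : Subgroup G} (hVU : V ≤ U) (hV : Opn S V)
    (h2 : V.relIndex U = 2) {s : G} (hs : s ∈ U) (hs' : s ∉ V) :
    ∃ ψ ∈ homs S V, cor V U s ψ ≠ 0 := by
  obtain ⟨r1, hle, r2, hf⟩ := nd_rank hS hVU hV h2 hs hs'
  by_contra hcon
  push Not at hcon
  have : (homs S V).map (cor V U s) = ⊥ := by
    rw [eq_bot_iff]
    rintro _ ⟨ψ, hψ, rfl⟩
    exact hcon ψ hψ
  rw [this, finrank_bot] at r1
  omega


private lemma symb_two (a : ZMod 2) : a + a = 0 := CharTwo.add_self_eq_zero a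

theorem Cob.add' {U : Subgroup G} {f f' : G → G → ZMod 2} (h : Cob S U f) (h' : Cob S U f') :
    Cob S U (fun g k => f g k + f' g k) := by
  obtain ⟨z, ⟨W, hW, h1⟩, h2⟩ := h
  obtain ⟨z', ⟨W', hW', h1'⟩, h2'⟩ := h'
  refine ⟨fun g => z g + z' g, ⟨W ⊓ W', S.inf hW hW', fun g w hw => ?_⟩, fun g hg k hk => ?_⟩
  · simp only
    rw [h1 g w hw.1, h1' g w hw.2]
  · simp only
    rw [h2 g hg k hk, h2' g hg k hk]
    ring

theorem cup_comm {U : Subgroup G} (hU : Opn S U) {χ ω : G → ZMod 2} (hχ : χ ∈ homs S U)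
    (hω : ω ∈ homs S U) : Cob S U (fun g h => cup χ ω g h + cup ω χ g h) := by
  obtain ⟨⟨W, hW, h1⟩, -, h3⟩ := hχ
  obtain ⟨⟨W', hW', h1'⟩, -, h3'⟩ := hω
  refine ⟨fun g => χ g * ω g, ⟨W ⊓ W', S.inf hW hW', fun g w hw => ?_⟩, fun g hg h hh => ?_⟩
  · simp only
    rw [h1 g w hw.1, h1' g w hw.2]
  · simp only [cup]
    rw [h3 g hg h hh, h3' g hg h hh]
    have e1 := symb_two (χ g * ω g)
    have e2 := symb_two (χ h * ω h)
    linear_combination -e1 - e2

/-- congruence and cancellation for coboundaries -/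
private lemma cob_congr {U : Subgroup G} {f f' : G → G → ZMod 2} (h : Cob S U f)
    (he : ∀ g ∈ U, ∀ k ∈ U, f' g k = f g k) : Cob S U f' := by
  obtain ⟨z, hz, h2⟩ := h
  exact ⟨z, hz, fun g hg k hk => by rw [he g hg k hk, h2 g hg k hk]⟩

private lemma cob_swap {U : Subgroup G} (hU : Opn S U) {χ ω : G → ZMod 2} (hχ : χ ∈ homs S U)
    (hω : ω ∈ homs S U) (h : Cob S U (cup χ ω)) : Cob S U (cup ω χ) := by
  refine cob_congr (Cob.add' h (cup_comm hU hχ hω)) fun g _ k _ => ?_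
  have := symb_two (cup χ ω g k)
  linear_combination -this

theorem symb_eq (hS : CountsD S d) {U : Subgroup G} (hU : Opn S U) {χ ω χ' ω' : G → ZMod 2}
    (hχ : χ ∈ homs S U) (hω : ω ∈ homs S U) (hχ' : χ' ∈ homs S U) (hω' : ω' ∈ homs S U)
    (h : ¬ Cob S U (cup χ ω)) (h' : ¬ Cob S U (cup χ' ω')) :
    Cob S U (fun g k => cup χ ω g k + cup χ' ω' g k) := by
  -- an element `η` with both symbols nonzero
  obtain ⟨η, hη, h1, h2⟩ : ∃ η ∈ homs S U, ¬ Cob S U (cup χ η) ∧ ¬ Cob S U (cup χ' η) := by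
    by_cases ha : Cob S U (cup χ' ω)
    · by_cases hb : Cob S U (cup χ ω')
      · refine ⟨ω + ω', add_mem hω hω', fun hc => h ?_, fun hc => h' ?_⟩
        · refine cob_congr (Cob.add' hc hb) fun g _ k _ => ?_
          simp only [cup, Pi.add_apply]
          have := symb_two (χ g * ω' k)
          linear_combination -this
        · refine cob_congr (Cob.add' hc ha) fun g _ k _ => ?_
          simp only [cup, Pi.add_apply]
          have := symb_two (χ' g * ω k)
          linear_combination -this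
      · exact ⟨ω', hω', hb, h'⟩
    · exact ⟨ω, hω, h, ha⟩
  have k1 : Cob S U (cup χ (ω + η)) := cob_add hS hU hχ hω hη h h1
  have k2 : Cob S U (cup χ' (ω' + η)) := cob_add hS hU hχ' hω' hη h' h2
  have k3 : Cob S U (cup η (χ + χ')) :=
    cob_add hS hU hη hχ hχ' (fun hc => h1 (cob_swap hU hη hχ hc)) (fun hc => h2 (cob_swap hU hη hχ' hc))
  have k4 : Cob S U (cup (χ + χ') η) := cob_swap hU hη (add_mem hχ hχ') k3
  refine cob_congr (Cob.add' (Cob.add' k1 k2) k4) fun g _ k _ => ?_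
  simp only [cup, Pi.add_apply]
  have e1 := symb_two (χ g * η k)
  have e2 := symb_two (χ' g * η k)
  linear_combination -e1 - e2


private lemma cl_two (a : ZMod 2) : a + a = 0 := CharTwo.add_self_eq_zero a

private lemma cl_one : ∀ x : ZMod 2, x ≠ 0 → x = 1 := by decide

private lemma cl_congr {U : Subgroup G} {f f' : G → G → ZMod 2} (h : Cob S U f)
    (he : ∀ g ∈ U, ∀ k ∈ U, f' g k = f g k) : Cob S U f' := by
  obtain ⟨z, hz, h2⟩ := h
  exact ⟨z, hz, fun g hg k hk => by rw [he g hg k hk, h2 g hg k hk]⟩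

private lemma cl_swap {U : Subgroup G} (hU : Opn S U) {χ ω : G → ZMod 2} (hχ : χ ∈ homs S U)
    (hω : ω ∈ homs S U) (h : Cob S U (cup χ ω)) : Cob S U (cup ω χ) := by
  refine cl_congr (Cob.add' h (cup_comm hU hχ hω)) fun g _ k _ => ?_
  have := cl_two (cup χ ω g k)
  linear_combination -this

private theorem cl_contra (hS : CountsD S d) {V U : Subgroup G} (hVU : V ≤ U) (hV : Opn S V)
    (h2 : V.relIndex U = 2) {α : G → G → ZMod 2} (hα : Coc S U α) {χ' ω' : G → ZMod 2}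
    (hχ' : χ' ∈ homs S V) (hω' : ω' ∈ homs S V) (hn : ¬ Cob S V (cup χ' ω'))
    (hc : Cob S V (fun g h => α g h + cup χ' ω' g h)) : False := by
  classical
  have hU : Opn S U := by
    obtain ⟨W, hW, hle⟩ := hV
    exact ⟨W, hW, hle.trans hVU⟩
  obtain ⟨s₀, hs₀, hs₀'⟩ : ∃ s ∈ U, s ∉ V := by
    by_contra hcon
    push Not at hcon
    have : V.relIndex U = 1 := Subgroup.relIndex_eq_one.2 hcon
    omega
  obtain ⟨ψ, hψ, hψ0⟩ := exists_cor_ne_zero hS hVU hV h2 hs₀ hs₀'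
  have hcorm := cor_mem hVU hV h2 hs₀ hs₀' hψ
  obtain ⟨ω, hω, hωn⟩ := exists_not_cob hS hU hcorm hψ0
  obtain ⟨s, hs, hs', hωs⟩ : ∃ s ∈ U, s ∉ V ∧ ω s = 0 := by
    by_contra hcon
    push Not at hcon
    have h1 : ∀ g ∈ U, g ∉ V → ω g = 1 := fun g hg hg' => cl_one _ (hcon g hg hg')
    have he : ω = chi V U := by
      funext g
      unfold chi
      by_cases hg : g ∈ U
      · by_cases hgV : g ∈ V
        · rw [if_neg (fun h => h.2 hgV)]
          have h3 : g * s₀ ∉ V := fun h => hs₀' ((Subgroup.mul_mem_cancel_left V hgV).1 h)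
          have h4 := h1 (g * s₀) (U.mul_mem hg hs₀) h3
          rw [hω.2.2 g hg s₀ hs₀, h1 s₀ hs₀ hs₀'] at h4
          linear_combination h4
        · rw [if_pos ⟨hg, hgV⟩, h1 g hg hgV]
      · rw [if_neg (fun h => hg h.1), hω.2.1 g hg]
    apply hωn
    rw [he]
    refine cl_swap hU (he ▸ hω) hcorm ?_
    exact (cup_chi_iff hVU hV h2 hs₀ hs₀' hcorm).2 ⟨ψ, hψ, rfl⟩
  have hcs : cor V U s ψ = cor V U s₀ ψ := cor_indep hVU hV h2 hs hs' hs₀ hs₀' hψ
  let ωV : G → ZMod 2 := fun g => if g ∈ V then ω g else 0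
  have hωV : ωV ∈ homs S V := by
    obtain ⟨W₁, hW₁, hle⟩ := hV
    obtain ⟨⟨W₂, hW₂, h1⟩, -, h3⟩ := hω
    refine ⟨⟨W₁ ⊓ W₂, S.inf hW₁ hW₂, fun g w hw => ?_⟩, fun g hg => if_neg hg, fun g hg h hh => ?_⟩
    · have hm : g * w ∈ V ↔ g ∈ V := Subgroup.mul_mem_cancel_right V (hle hw.1)
      simp only [ωV, hm, h1 g w hw.2]
    · simp only [ωV, if_pos hg, if_pos hh, if_pos (V.mul_mem hg hh)]
      exact h3 g (hVU hg) h (hVU hh)
  have hωVe : ∀ g ∈ V, ωV g = ω g := fun g hg => if_pos hg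
  have hn2 : ¬ Cob S V (cup ψ ωV) := by
    intro hcc
    apply hωn
    rw [← hcs]
    obtain ⟨W, hW⟩ := S.ex
    refine notres hVU hV h2 hs hs' hψ hω hωs (α := fun _ _ => 0)
      ⟨⟨W, hW, fun _ _ _ _ _ _ => rfl⟩, fun _ _ _ _ _ _ => rfl⟩ ?_
    refine cl_congr hcc fun g _ k hk => ?_
    simp only [cup, add_zero, hωVe k hk]
  have k1 := symb_eq hS hV hψ hωV hχ' hω' hn2 hn
  apply hωn
  rw [← hcs]
  refine notres hVU hV h2 hs hs' hψ hω hωs hα ?_
  refine cl_congr (Cob.add' k1 hc) fun g _ k hk => ?_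
  simp only [cup, hωVe k hk]
  have := cl_two (χ' g * ω' k)
  linear_combination -this

private theorem cl_key (hS : CountsD S d) {W : Subgroup G} (hW : S.mem W) :
    ∀ n : ℕ, ∀ U : Subgroup G, W ≤ U → W.relIndex U ≤ n → ∀ α : G → G → ZMod 2, Coc S U α →
      Cob S W α → Cob S U α ∨ ∃ χ ∈ homs S U, ∃ ω ∈ homs S U, ¬ Cob S U (cup χ ω) ∧
      Cob S U (fun g h => α g h + cup χ ω g h) := by
  intro n
  induction n with
  | zero =>
    intro U hWU hn α hα hc
    exfalso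
    by_cases hne : W = U
    · rw [hne, Subgroup.relIndex_self] at hn
      omega
    · obtain ⟨V, -, -, -, h⟩ := exists_between hW hWU hne
      omega
  | succ n ih =>
    intro U hWU hn α hα hc
    by_cases hne : W = U
    · rw [← hne]
      exact Or.inl hc
    obtain ⟨V, hWV, hVU, h2, hlt⟩ := exists_between hW hWU hne
    have hV : Opn S V := ⟨W, hW, hWV⟩
    have hαV : Coc S V α := ⟨hα.1, fun g hg h hh k hk => hα.2 g (hVU hg) h (hVU hh) k (hVU hk)⟩
    rcases ih V hWV (by omega) α hαV hc with h | ⟨χ', hχ', ω', hω', hn', hc'⟩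
    · obtain ⟨ψ, hψ, hψc⟩ := res_cob hVU hV h2 hα h
      by_cases hcc : Cob S U (cup (chi V U) ψ)
      · left
        refine cl_congr (Cob.add' hψc hcc) fun g _ k _ => ?_
        have := cl_two (cup (chi V U) ψ g k)
        linear_combination -this
      · right
        exact ⟨chi V U, chi_mem hVU hV h2, ψ, hψ, hcc, hψc⟩
    · exact (cl_contra hS hVU hV h2 hα hχ' hω' hn' hc').elim

theorem climb (hS : CountsD S d) {U : Subgroup G} (hU : Opn S U) {α : G → G → ZMod 2}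
    (hα : Coc S U α) : Cob S U α ∨ ∃ χ ∈ homs S U, ∃ ω ∈ homs S U, ¬ Cob S U (cup χ ω) ∧
      Cob S U (fun g h => α g h + cup χ ω g h) := by
  obtain ⟨W, hW, hWU, hc⟩ := exists_cob hU hα
  exact cl_key hS hW _ U hWU le_rfl α hα hc

theorem localType (hS : CountsD S d) : LocalType S := by
  have hT : Opn S (⊤ : Subgroup G) := by
    obtain ⟨W, hW⟩ := S.ex
    exact ⟨W, hW, le_top⟩
  refine ⟨fun χ hχ h0 => exists_not_cob hS hT hχ h0, fun f f' hf hf' hn hn' => ?_⟩
  rcases climb hS hT hf with h | ⟨χ, hχ, ω, hω, h1, h2⟩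
  · exact absurd h hn
  rcases climb hS hT hf' with h | ⟨χ', hχ', ω', hω', h1', h2'⟩
  · exact absurd h hn'
  have k := symb_eq hS hT hχ hω hχ' hω' h1 h1'
  refine cl_congr (Cob.add' (Cob.add' h2 h2') k) fun g _ k _ => ?_
  have e1 := cl_two (cup χ ω g k)
  have e2 := cl_two (cup χ' ω' g k)
  linear_combination -e1 - e2

end Pool.Agent.Work.MP_787500_nt.LE
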